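import Pool.Agent.PRT.StmtsC
import Pool.Agent.PRT.Kit

/-!
# PRT row GRF (helper2): the growth of the iterates of `F`
-/

set_option autoImplicit false

namespace Pool.Agent.PRT.H2

open Set MeasureTheory
open scoped ContDiff Nat

theorem iter_cd {F : E → E} (h : ContDiff ℝ ∞ F) : ∀ n : ℕ, ContDiff ℝ ∞ (F^[n])
  | 0 => contDiff_id
  | n + 1 => by
    rw [Function.iterate_succ]
    exact (iter_cd h n).comp h

theorem iter_eqv {F : E → E} (h : Eqv F) : ∀ n : ℕ, Eqv (F^[n])
  | 0 => fun _ _ _ => rfl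
  | n + 1 => by
    intro a b z
    rw [Function.iterate_succ_apply, Function.iterate_succ_apply, h a b z]
    exact iter_eqv h n a b (F z)

theorem bm_const (k : ℕ) (a : E) : Bm k 0 (fun _ : E => a) := by
  intro i h1 _ z
  rw [iteratedFDeriv_const_of_ne (by omega)]
  simp

theorem grf (hglf : GlfStmt) (hgrk : GrkStmt) : GrfStmt := by
  intro k
  obtain ⟨c, l0, hc⟩ := hgrk k
  refine ⟨c * (k + 1) + 2, max l0 (k ! * 2 ^ k), ?_⟩
  intro F w C q p l N R n hl hN hk hG hNr hn j hj i hi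
  have hl0 : l0 ≤ l := le_trans (le_max_left _ _) hl
  have hlk : (k ! : ℝ) * 2 ^ k ≤ l := le_trans (le_max_right _ _) hl
  have hl1 : 1 ≤ l := hG.l1
  obtain ⟨h1, h2, -⟩ := hglf F w C q p l N R hG
  have h3 := hc _ _ C l N n hl0 hN hNr hn j hj
  have h4 : Bm k l (F^[i]) := (hG.bd i hi).mono hk le_rfl
  have sF : ContDiff ℝ ∞ F := hG.lf.sm
  have sg : ContDiff ℝ ∞ (fun z => F^[q] z - p) := h1.sm
  have hD : (1 : ℝ) ≤ l ^ c := one_le_pow₀ hl1
  have h5 := Bm.comp h4 (by linarith) h3 hD (iter_cd sF i) (iter_cd sg j)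
  obtain ⟨a, b, hp⟩ := hG.pz
  have key : F^[q * j + i] = fun z => F^[i] ((fun z => F^[q] z - p)^[j] z) + (j : ℝ) • p := by
    funext z
    have e1 : F^[q * j] z = (fun z => F^[q] z - p)^[j] z + iv (j * a) (j * b) := by
      have h6 := h2 j z
      have e2 : (j : ℝ) • p = iv (j * a) (j * b) := by
        rw [hp]
        unfold iv
        ext <;> simp
      rw [h6, e2]
      abel
    have e2 : (j : ℝ) • p = iv (j * a) (j * b) := by
      rw [hp]
      unfold iv
      ext <;> simp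
    rw [add_comm (q * j) i, Function.iterate_add_apply, e1, iter_eqv hG.lf.eqv i, e2]
  rw [key]
  have h7 := Bm.add h5 (bm_const k ((j : ℝ) • p)) ((iter_cd sF i).comp (iter_cd sg j))
    contDiff_const
  refine Bm.mono h7 le_rfl ?_
  rw [add_zero]
  have e3 : l ^ (c * (k + 1) + 2) = l * l * (l ^ c) ^ (k + 1) := by
    rw [pow_add, pow_mul]
    ring
  rw [e3]
  have h8 : 0 ≤ (l ^ c) ^ (k + 1) := by positivity
  have h9 : (k ! : ℝ) * 2 ^ k * l ≤ l * l := mul_le_mul_of_nonneg_right hlk (by linarith)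
  exact mul_le_mul_of_nonneg_right h9 h8

end Pool.Agent.PRT.H2
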