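import Pool.Agent.PRT.StmtsD
import Pool.Agent.PRT.Kit

/-!
# PRT row UDT (helper2): the determinant of the coordinates
-/

set_option autoImplicit false

namespace Pool.Agent.PRT.H2

open Set MeasureTheory
open scoped ContDiff

/-- `ip v` as a linear map -/
noncomputable def ipL (v : E) : E →L[ℝ] ℝ :=
  v.1 • ContinuousLinearMap.fst ℝ ℝ ℝ + v.2 • ContinuousLinearMap.snd ℝ ℝ ℝ

theorem ipL_apply (v a : E) : ipL v a = ip v a := by
  simp [ipL, ip]

theorem le_ip (v : E) : ‖v‖ ^ 2 ≤ ip v v := by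
  unfold ip
  rw [Prod.norm_def, Real.norm_eq_abs, Real.norm_eq_abs]
  rcases le_total |v.1| |v.2| with h | h
  · rw [max_eq_right h]
    have h1 := sq_abs v.2
    nlinarith [sq_nonneg v.1]
  · rw [max_eq_left h]
    have h1 := sq_abs v.1
    nlinarith [sq_nonneg v.2]

theorem cr_vj (v : E) (a b a' b' : ℝ) (κ : ℝ) :
    cr (κ • (a • v + b • jj v)) (κ • (a' • v + b' • jj v)) = κ ^ 2 * ip v v * (a * b' - a' * b) := by
  unfold cr ip jj
  simp
  ring

theorem udt (hdfb : DfbStmt) : UdtStmt := by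
  intro c0
  obtain ⟨c, hc⟩ := hdfb 0
  refine ⟨max 64 (c * 2 ^ c), ?_⟩
  intro g v C l N H S hl hN hNr sH sS bH hHg hSg
  have hl64 : (64 : ℝ) ≤ l := le_trans (le_max_left _ _) hl
  have hlc : (c : ℝ) * 2 ^ c ≤ l := le_trans (le_max_right _ _) hl
  have hl1 : (1 : ℝ) ≤ l := hNr.l1
  have hl0 : (0 : ℝ) < l := by linarith
  set ε := ‖v‖ with hε
  have hε0 : 0 < ε := hNr.v0
  have hεN : ε * l ^ (2 * N) = 1 := hNr.lN
  -- small powers
  have small : ∀ m : ℕ, m + 1 ≤ 2 * N → ε * l ^ m ≤ 1 / 64 := by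
    intro m hm
    have h1 : ε * l ^ m * 64 ≤ ε * l ^ (m + 1) := by
      rw [pow_succ, ← mul_assoc]
      exact mul_le_mul_of_nonneg_left hl64 (by positivity)
    have h2 : ε * l ^ (m + 1) ≤ ε * l ^ (2 * N) :=
      mul_le_mul_of_nonneg_left (pow_le_pow_right₀ hl1 hm) hε0.le
    linarith
  have hcd : ContDiff ℝ ∞ (UU v H S) := by
    unfold UU
    have h1 : ContDiff ℝ ∞ (fun z => ip v (H z)) := by
      have : (fun z => ip v (H z)) = fun z => ipL v (H z) := by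
        funext z
        rw [ipL_apply]
      rw [this]
      exact (ipL v).contDiff.comp sH
    have h2 : ContDiff ℝ ∞ (fun z : E => ip v (H z) • v + S z • jj v) :=
      (h1.smul (contDiff_const (c := v))).add (sS.smul (contDiff_const (c := jj v)))
    exact h2.const_smul (ip v v)⁻¹
  refine ⟨hcd, ?_⟩
  intro z
  have sg : ContDiff ℝ ∞ (fun z => g z - z) := hNr.lf.sm.sub contDiff_id
  set φ := g z - z with hφ
  have bφ : ‖φ‖ ≤ ε * l ^ 8 := by
    have := hNr.bd 0 (Nat.zero_le _) z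
    simpa using this
  have hv0 : 0 < ip v v := lt_of_lt_of_le (by positivity) (le_ip v)
  set κ := (ip v v)⁻¹ with hκ
  have hκ0 : 0 < κ := inv_pos.2 hv0
  have hκi : κ * ip v v = 1 := inv_mul_cancel₀ hv0.ne'
  have hκε : κ * ε ^ 2 ≤ 1 := by
    rw [← hκi]
    exact mul_le_mul_of_nonneg_left (le_ip v) hκ0.le
  -- the derivative
  set α : E →L[ℝ] ℝ := (ipL v).comp (fderiv ℝ H z) with hα
  set β : E →L[ℝ] ℝ := fderiv ℝ S z with hβ
  have hder : HasFDerivAt (UU v H S) (κ • (α.smulRight v + β.smulRight (jj v))) z := by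
    have h1 : HasFDerivAt H (fderiv ℝ H z) z := (sH.differentiable (by simp)).differentiableAt.hasFDerivAt
    have h2 : HasFDerivAt S β z := (sS.differentiable (by simp)).differentiableAt.hasFDerivAt
    have h3 : HasFDerivAt (fun z => ip v (H z)) α z := by
      have h4 := HasFDerivAt.comp z ((ipL v).hasFDerivAt (x := H z)) h1
      have : (fun z => ip v (H z)) = ⇑(ipL v) ∘ H := by
        funext z
        rw [Function.comp_apply, ipL_apply]
      rw [this]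
      exact h4
    exact ((h3.smul_const v).add (h2.smul_const (jj v))).const_smul κ
  have hdet : (fderiv ℝ (UU v H S) z).det =
      κ * (α (1, 0) * β (0, 1) - α (0, 1) * β (1, 0)) := by
    rw [hder.fderiv, det_eq]
    have e : ∀ u : E, (κ • (α.smulRight v + β.smulRight (jj v))) u =
        κ • (α u • v + β u • jj v) := fun u => rfl
    rw [e, e, cr_vj]
    have : κ ^ 2 * ip v v = κ := by
      rw [pow_two, mul_assoc, hκi, mul_one]
    rw [this]
  set θ : E →L[ℝ] ℝ := β - crL φ with hθ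
  have hβe : ∀ u : E, β u = cr φ u + θ u := by
    intro u
    rw [hθ, sub_apply, crL_apply]
    ring
  have hlin := cr_lin α φ (1, 0) (0, 1)
  have hcr1 : cr ((1, 0) : E) (0, 1) = 1 := by unfold cr; norm_num
  rw [hcr1, mul_one] at hlin
  have hdet2 : (fderiv ℝ (UU v H S) z).det =
      κ * (α φ + (α (1, 0) * θ (0, 1) - α (0, 1) * θ (1, 0))) := by
    rw [hdet, hβe, hβe, ← hlin]
    ring
  -- the main term
  have hρ : ‖H (z + φ) - H z - fderiv ℝ H z φ‖ ≤ ε ^ 2 * l ^ (c0 + 17) := by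
    have hb : Bd 0 (ε * l ^ 8) (fun z => g z - z) := by
      intro i hi w
      obtain rfl : i = 0 := by omega
      have := hNr.bd 0 (Nat.zero_le _) w
      simpa using this
    have h1 := hc E H (fun z => g z - z) (l ^ c0) (ε * l ^ 8) sH sg (by positivity) bH hb 0 le_rfl z
    rw [norm_iteratedFDeriv_zero] at h1
    refine le_trans h1 ?_
    have h2 : ε * l ^ 8 ≤ 1 := (small 8 (by omega)).trans (by norm_num)
    have h3 : (1 + ε * l ^ 8) ^ c ≤ 2 ^ c :=
      pow_le_pow_left₀ (by positivity) (by linarith) c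
    calc (c : ℝ) * l ^ c0 * (ε * l ^ 8) ^ 2 * (1 + ε * l ^ 8) ^ c
        ≤ (c : ℝ) * l ^ c0 * (ε * l ^ 8) ^ 2 * 2 ^ c := by gcongr
      _ = (c : ℝ) * 2 ^ c * (ε ^ 2 * l ^ (c0 + 16)) := by
          rw [mul_pow, ← pow_mul, pow_add]
          ring
      _ ≤ l * (ε ^ 2 * l ^ (c0 + 16)) := mul_le_mul_of_nonneg_right hlc (by positivity)
      _ = ε ^ 2 * l ^ (c0 + 17) := by
          rw [show c0 + 17 = (c0 + 16) + 1 by ring, pow_succ]
          ring
  have hgz : z + φ = g z := by rw [hφ]; abel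
  have hαφ : α φ = ip v v + ip v (H (g z) - H z - v) -
      ip v (H (z + φ) - H z - fderiv ℝ H z φ) := by
    rw [hα, ContinuousLinearMap.comp_apply, ipL_apply, hgz]
    unfold ip
    simp only [Prod.fst_sub, Prod.snd_sub]
    ring
  have b1 : κ * |ip v (H (g z) - H z - v)| ≤ 1 / 8 := by
    have h1 := abs_ip_le v (H (g z) - H z - v)
    have h2 := hHg z
    have h3 : |ip v (H (g z) - H z - v)| ≤ ε ^ 2 / 8 := by
      refine h1.trans ?_
      calc 2 * ‖v‖ * ‖H (g z) - H z - v‖ ≤ 2 * ε * (ε / 16) := by gcongr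
        _ = ε ^ 2 / 8 := by ring
    calc κ * |ip v (H (g z) - H z - v)| ≤ κ * (ε ^ 2 / 8) := by gcongr
      _ = κ * ε ^ 2 / 8 := by ring
      _ ≤ 1 / 8 := by linarith
  have b2 : κ * |ip v (H (z + φ) - H z - fderiv ℝ H z φ)| ≤ 2 / 64 := by
    have h1 := abs_ip_le v (H (z + φ) - H z - fderiv ℝ H z φ)
    have h3 : |ip v (H (z + φ) - H z - fderiv ℝ H z φ)| ≤ ε ^ 2 * (2 * (ε * l ^ (c0 + 17))) := by
      refine h1.trans ?_
      calc 2 * ‖v‖ * ‖H (z + φ) - H z - fderiv ℝ H z φ‖ ≤ 2 * ε * (ε ^ 2 * l ^ (c0 + 17)) := by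
            gcongr
        _ = ε ^ 2 * (2 * (ε * l ^ (c0 + 17))) := by ring
    have h4 := small (c0 + 17) (by omega)
    have h5 : 0 ≤ 2 * (ε * l ^ (c0 + 17)) := by positivity
    calc κ * |ip v (H (z + φ) - H z - fderiv ℝ H z φ)|
        ≤ κ * (ε ^ 2 * (2 * (ε * l ^ (c0 + 17)))) := by gcongr
      _ = κ * ε ^ 2 * (2 * (ε * l ^ (c0 + 17))) := by ring
      _ ≤ 1 * (2 * (ε * l ^ (c0 + 17))) := mul_le_mul_of_nonneg_right hκε h5
      _ ≤ 2 / 64 := by linarith
  have bα : ∀ u : E, ‖u‖ ≤ 1 → |α u| ≤ 2 * ε * l ^ c0 := by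
    intro u hu
    rw [hα, ContinuousLinearMap.comp_apply, ipL_apply]
    refine (abs_ip_le _ _).trans ?_
    have h1 : ‖fderiv ℝ H z‖ ≤ l ^ c0 := bH.fderiv_le (by norm_num) z
    have h2 : ‖fderiv ℝ H z u‖ ≤ l ^ c0 := by
      refine (ContinuousLinearMap.le_opNorm _ _).trans ?_
      calc ‖fderiv ℝ H z‖ * ‖u‖ ≤ l ^ c0 * 1 := by gcongr
        _ = l ^ c0 := mul_one _
    gcongr
  have bθ : ∀ u : E, ‖u‖ ≤ 1 → |θ u| ≤ ε ^ 2 * l ^ c0 := by
    intro u hu
    have h1 : ‖θ‖ ≤ ε ^ 2 * l ^ c0 := hSg z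
    have h2 := ContinuousLinearMap.le_opNorm θ u
    rw [Real.norm_eq_abs] at h2
    refine h2.trans ?_
    calc ‖θ‖ * ‖u‖ ≤ (ε ^ 2 * l ^ c0) * 1 := by gcongr
      _ = ε ^ 2 * l ^ c0 := mul_one _
  have n1 : ‖((1, 0) : E)‖ ≤ 1 := by rw [Prod.norm_def]; simp
  have n2 : ‖((0, 1) : E)‖ ≤ 1 := by rw [Prod.norm_def]; simp
  have b3 : κ * |α (1, 0) * θ (0, 1) - α (0, 1) * θ (1, 0)| ≤ 4 / 64 := by
    have h1 := bα _ n1
    have h2 := bα _ n2
    have h3 := bθ _ n1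
    have h4 := bθ _ n2
    have h5 : |α (1, 0) * θ (0, 1) - α (0, 1) * θ (1, 0)| ≤ ε ^ 2 * (4 * (ε * l ^ (2 * c0))) := by
      calc |α (1, 0) * θ (0, 1) - α (0, 1) * θ (1, 0)|
          ≤ |α (1, 0) * θ (0, 1)| + |α (0, 1) * θ (1, 0)| := abs_sub _ _
        _ = |α (1, 0)| * |θ (0, 1)| + |α (0, 1)| * |θ (1, 0)| := by rw [abs_mul, abs_mul]
        _ ≤ (2 * ε * l ^ c0) * (ε ^ 2 * l ^ c0) + (2 * ε * l ^ c0) * (ε ^ 2 * l ^ c0) := by gcongr
        _ = ε ^ 2 * (4 * (ε * l ^ (2 * c0))) := by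
            rw [show 2 * c0 = c0 + c0 by ring, pow_add]
            ring
    have h6 := small (2 * c0) (by omega)
    have h7 : 0 ≤ 4 * (ε * l ^ (2 * c0)) := by positivity
    calc κ * |α (1, 0) * θ (0, 1) - α (0, 1) * θ (1, 0)|
        ≤ κ * (ε ^ 2 * (4 * (ε * l ^ (2 * c0)))) := by gcongr
      _ = κ * ε ^ 2 * (4 * (ε * l ^ (2 * c0))) := by ring
      _ ≤ 1 * (4 * (ε * l ^ (2 * c0))) := mul_le_mul_of_nonneg_right hκε h7
      _ ≤ 4 / 64 := by linarith
  have key : |(fderiv ℝ (UU v H S) z).det - 1| ≤ 1 / 2 := by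
    have e1 : (fderiv ℝ (UU v H S) z).det - 1 = κ * ip v (H (g z) - H z - v) -
        κ * ip v (H (z + φ) - H z - fderiv ℝ H z φ) +
          κ * (α (1, 0) * θ (0, 1) - α (0, 1) * θ (1, 0)) := by
      rw [hdet2, hαφ]
      have : κ * ip v v = 1 := hκi
      linear_combination this
    rw [e1]
    have a1 : |κ * ip v (H (g z) - H z - v)| = κ * |ip v (H (g z) - H z - v)| := by
      rw [abs_mul, abs_of_pos hκ0]
    have a2 : |κ * ip v (H (z + φ) - H z - fderiv ℝ H z φ)| =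
        κ * |ip v (H (z + φ) - H z - fderiv ℝ H z φ)| := by
      rw [abs_mul, abs_of_pos hκ0]
    have a3 : |κ * (α (1, 0) * θ (0, 1) - α (0, 1) * θ (1, 0))| =
        κ * |α (1, 0) * θ (0, 1) - α (0, 1) * θ (1, 0)| := by
      rw [abs_mul, abs_of_pos hκ0]
    have t1 := abs_add_le (κ * ip v (H (g z) - H z - v) -
        κ * ip v (H (z + φ) - H z - fderiv ℝ H z φ))
        (κ * (α (1, 0) * θ (0, 1) - α (0, 1) * θ (1, 0)))
    have t2 := abs_sub (κ * ip v (H (g z) - H z - v))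
        (κ * ip v (H (z + φ) - H z - fderiv ℝ H z φ))
    linarith
  have := abs_le.1 key
  constructor <;> linarith

end Pool.Agent.PRT.H2
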